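import Pool.Agent.H64.LB.Targets

/-!
Module L-S2H of block L (MP_2059f1_ag): homology of the two-sphere.
-/

open Topology Set
open Pool.Agent.H59 Pool.Agent.H64.LB
open scoped ContinuousMap

namespace Pool.Agent.H4.LB

/-- A homotopy equivalence induces bijections. -/
theorem bij_of_homotopic (hHM : T_HM) (R : Type) [CommRing R] {X Y : Type} [TopologicalSpace X]
    [TopologicalSpace Y] (f : C(X, Y)) (g : C(Y, X)) (h1 : (g.comp f).Homotopic (ContinuousMap.id X))
    (h2 : (f.comp g).Homotopic (ContinuousMap.id Y)) (q : ℕ) :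
    Function.Bijective (HH.map R q f) := by
  have e1 : ∀ z, HH.map R q g (HH.map R q f z) = z := by
    intro z
    rw [← HH.map_comp, hHM R X X _ _ h1 q, HH.map_id]
  have e2 : ∀ z, HH.map R q f (HH.map R q g z) = z := by
    intro z
    rw [← HH.map_comp, hHM R Y Y _ _ h2 q, HH.map_id]
  exact ⟨Function.LeftInverse.injective e1, Function.RightInverse.surjective e2⟩

/-- the map `x ↦ (x, ())` from the sphere -/
def sph : C(S2, Sph 2 × Unit) := S2.toSph.prodMk (ContinuousMap.const S2 ())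

theorem sph_bij (hS2E : T_S2E) (hHM : T_HM) (R : Type) [CommRing R] (q : ℕ) :
    Function.Bijective (HH.map R q sph) := by
  obtain ⟨e, he⟩ := hS2E
  refine bij_of_homotopic hHM R sph
    (e.invFun.comp (ContinuousMap.fst : C(Sph 2 × Unit, Sph 2))) ?_ ?_ q
  · have h : (e.invFun.comp (ContinuousMap.fst : C(Sph 2 × Unit, Sph 2))).comp sph =
        e.invFun.comp e.toFun := by
      rw [he]
      rfl
    rw [h]
    exact e.left_inv
  · have h : sph.comp (e.invFun.comp (ContinuousMap.fst : C(Sph 2 × Unit, Sph 2))) =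
        ((ContinuousMap.id (Sph 2)).prodMk (ContinuousMap.const (Sph 2) ())).comp
          ((e.toFun.comp e.invFun).comp (ContinuousMap.fst : C(Sph 2 × Unit, Sph 2))) := by
      rw [he]
      rfl
    have h2 : ContinuousMap.id (Sph 2 × Unit) =
        ((ContinuousMap.id (Sph 2)).prodMk (ContinuousMap.const (Sph 2) ())).comp
          ((ContinuousMap.id (Sph 2)).comp (ContinuousMap.fst : C(Sph 2 × Unit, Sph 2))) := by
      ext x
      rfl
    rw [h, h2]
    exact (ContinuousMap.Homotopic.refl ((ContinuousMap.id (Sph 2)).prodMk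
      (ContinuousMap.const (Sph 2) ()))).comp (e.right_inv.comp
        (ContinuousMap.Homotopic.refl (ContinuousMap.fst : C(Sph 2 × Unit, Sph 2))))

theorem s2h (hSU : T_SUSP) (hS2E : T_S2E) (hHM : T_HM) (hCON : T_CON) (hH0 : T_H0) : T_S2H := by
  intro R _
  obtain ⟨S⟩ := hSU R
  obtain ⟨ε, -, -, hε⟩ := hH0 R
  have hbij := fun q => sph_bij hS2E hHM R q
  have hun : ∀ q, Subsingleton (HH R (q + 1) Unit) := fun q => hCON R Unit q
  -- in positive degrees everything is in the kernel
  have hK : ∀ (q : ℕ) (z : HH R (q + 1) (Sph 2 × Unit)), z ∈ KK R 2 (q + 1) Unit := by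
    intro q z
    have := hun q
    exact LinearMap.mem_ker.2 (Subsingleton.elim _ _)
  refine ⟨?_, ?_, ?_, ?_⟩
  · let a : HH R 2 S2 ≃ₗ[R] HH R 2 (Sph 2 × Unit) := LinearEquiv.ofBijective _ (hbij 2)
    let b : KK R 2 2 Unit ≃ₗ[R] HH R 2 (Sph 2 × Unit) := LinearEquiv.ofTop _ (by
      rw [eq_top_iff]
      intro z _
      exact hK 1 z)
    let c : KK R 2 2 Unit ≃ₗ[R] HH R 0 Unit := S.κ 2 0 Unit
    let d : HH R 0 Unit ≃ₗ[R] R := LinearEquiv.ofBijective _ (hε Unit)
    exact ⟨((a.trans b.symm).trans c).trans d⟩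
  · refine ⟨fun x y => (hbij 1).1 ?_⟩
    have h : ∀ z : HH R 1 (Sph 2 × Unit), z = 0 := by
      intro z
      have h1 := hK 0 z
      rw [S.low 2 1 Unit (by norm_num)] at h1
      exact h1
    rw [h (HH.map R 1 sph x), h (HH.map R 1 sph y)]
  · intro q
    refine ⟨fun x y => (hbij (q + 3)).1 ?_⟩
    have h : ∀ z : HH R (q + 3) (Sph 2 × Unit), z = 0 := by
      intro z
      have hz : z ∈ KK R 2 (q + 1 + 2) Unit := hK (q + 2) z
      have := hun q
      have h1 : S.κ 2 (q + 1) Unit ⟨z, hz⟩ = 0 := Subsingleton.elim _ _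
      rw [LinearEquiv.map_eq_zero_iff] at h1
      exact congrArg Subtype.val h1
    rw [h (HH.map R (q + 3) sph x), h (HH.map R (q + 3) sph y)]
  · intro z
    apply (hbij 2).1
    have hc : sph.comp S2.anti =
        (((Sph.refl 2 0).prodMap (ContinuousMap.id Unit)).comp
          (((Sph.refl 2 1).prodMap (ContinuousMap.id Unit)).comp
            (((Sph.refl 2 2).prodMap (ContinuousMap.id Unit)).comp sph))) := by
      ext x i
      · fin_cases i <;> simp [sph, S2.toSph, S2.anti, Sph.refl]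
    rw [← HH.map_comp, hc, HH.map_comp, HH.map_comp, HH.map_comp,
      S.refl 2 2 Unit 2 _ (hK 1 _), map_neg, S.refl 2 2 Unit 1 _ (hK 1 _), neg_neg,
      S.refl 2 2 Unit 0 _ (hK 1 _), map_neg]

end Pool.Agent.H4.LB
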