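import Pool.Agent.H4.LB.S2H

/-!
Module L-SU1 of block L (MP_2059f1_ag): suspension step by the Mayer-Vietoris sequence.
-/

open Topology Set
open Pool.Agent.H59 Pool.Agent.H64.LB
open scoped ContinuousMap unitInterval

namespace Pool.Agent.H4.LB

section sn

variable {k : ℕ}

/-- the vector with first coordinates `a` and last coordinate `b` -/
def sn (a : Fin (k + 1) → ℝ) (b : ℝ) : Fin (k + 1 + 1) → ℝ := Fin.snoc (α := fun _ => ℝ) a b

theorem sn_castSucc (a : Fin (k + 1) → ℝ) (b : ℝ) (i : Fin (k + 1)) : sn a b i.castSucc = a i :=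
  Fin.snoc_castSucc (α := fun _ => ℝ) b a i

theorem sn_last (a : Fin (k + 1) → ℝ) (b : ℝ) : sn a b (Fin.last (k + 1)) = b :=
  Fin.snoc_last (α := fun _ => ℝ) b a

theorem sn_ne (a : Fin (k + 1) → ℝ) (b : ℝ) (h : (∃ i, a i ≠ 0) ∨ b ≠ 0) : sn a b ≠ 0 := by
  intro h0
  rcases h with ⟨i, hi⟩ | h
  · apply hi
    have := congrFun h0 i.castSucc
    rwa [sn_castSucc] at this
  · apply h
    have := congrFun h0 (Fin.last (k + 1))
    rwa [sn_last] at this

theorem sn_cont {Y : Type} [TopologicalSpace Y] {a : Y → Fin (k + 1) → ℝ} {b : Y → ℝ}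
    (ha : Continuous a) (hb : Continuous b) : Continuous (fun y => sn (a y) (b y)) := by
  refine continuous_pi fun i => ?_
  refine Fin.lastCases ?_ (fun i => ?_) i
  · simp only [sn_last]
    exact hb
  · simp only [sn_castSucc]
    exact (continuous_apply i).comp ha

theorem ext_last {x y : Fin (k + 1 + 1) → ℝ} (h : ∀ i : Fin (k + 1), x i.castSucc = y i.castSucc)
    (h' : x (Fin.last (k + 1)) = y (Fin.last (k + 1))) : x = y := by
  funext i
  exact Fin.lastCases h' h i

end sn

section su

variable (k : ℕ) (T : Type) [TopologicalSpace T]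

/-- the open set where the first coordinates do not vanish or `0 < c x_last` -/
def US (c : ℝ) : Set (Sph (k + 1) × T) :=
  {p | (∃ i : Fin (k + 1), p.1.1 i.castSucc ≠ 0) ∨ 0 < c * p.1.1 (Fin.last (k + 1))}

theorem coord_cont (i : Fin (k + 1 + 1)) : Continuous (fun p : Sph (k + 1) × T => p.1.1 i) :=
  (continuous_apply i).comp (continuous_subtype_val.comp continuous_fst)

theorem US_open (c : ℝ) : IsOpen (US k T c) := by
  have h : US k T c = (⋃ i : Fin (k + 1), {p | p.1.1 i.castSucc ≠ 0}) ∪
      {p | 0 < c * p.1.1 (Fin.last (k + 1))} := by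
    ext p
    simp [US]
  rw [h]
  refine IsOpen.union (isOpen_iUnion fun i => ?_) ?_
  · exact isOpen_ne_fun (coord_cont k T _) continuous_const
  · exact isOpen_lt continuous_const (continuous_const.mul (coord_cont k T _))

theorem US_union : US k T 1 ∪ US k T (-1) = univ := by
  rw [eq_univ_iff_forall]
  intro p
  by_cases h : ∃ i : Fin (k + 1), p.1.1 i.castSucc ≠ 0
  · exact Or.inl (Or.inl h)
  · push Not at h
    have h1 : p.1.1 (Fin.last (k + 1)) ≠ 0 := by
      intro h0
      apply p.1.2
      exact ext_last h h0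
    rcases lt_or_gt_of_ne h1 with h2 | h2
    · right
      right
      linarith
    · left
      right
      linarith

theorem US_inter {p : Sph (k + 1) × T} (h : p ∈ US k T 1 ∩ US k T (-1)) :
    ∃ i : Fin (k + 1), p.1.1 i.castSucc ≠ 0 := by
  rcases h.1 with h1 | h1
  · exact h1
  · rcases h.2 with h2 | h2
    · exact h2
    · exfalso
      linarith

/-- the first coordinates -/
def rr : C(↥(US k T 1 ∩ US k T (-1)), Sph k × T) where
  toFun p := (⟨fun i => p.1.1.1 i.castSucc, by
    obtain ⟨i, hi⟩ := US_inter k T p.2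
    exact fun h => hi (congrFun h i)⟩, p.1.2)
  continuous_toFun := by
    refine Continuous.prodMk ?_ (continuous_snd.comp continuous_subtype_val)
    refine Continuous.subtype_mk ?_ _
    exact continuous_pi fun i => (coord_cont k T _).comp continuous_subtype_val

/-- the section of `rr` -/
def ss : C(Sph k × T, ↥(US k T 1 ∩ US k T (-1))) where
  toFun q := ⟨(⟨sn q.1.1 0, sn_ne _ _ (Or.inl (Function.ne_iff.1 q.1.2))⟩, q.2), by
    obtain ⟨i, hi⟩ := Function.ne_iff.1 q.1.2
    have h : ∃ i : Fin (k + 1), sn q.1.1 0 i.castSucc ≠ 0 := ⟨i, by rw [sn_castSucc]; exact hi⟩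
    exact ⟨Or.inl h, Or.inl h⟩⟩
  continuous_toFun := by
    refine Continuous.subtype_mk ?_ _
    refine Continuous.prodMk ?_ continuous_snd
    refine Continuous.subtype_mk ?_ _
    exact sn_cont (continuous_subtype_val.comp continuous_fst) continuous_const

theorem rr_ss : (rr k T).comp (ss k T) = ContinuousMap.id _ := by
  ext q i
  · simp [rr, ss, sn_castSucc]
  · rfl

theorem ss_rr : ((ss k T).comp (rr k T)).Homotopic (ContinuousMap.id _) := by
  refine ⟨⟨⟨fun q => ⟨(⟨sn (fun i => q.2.1.1.1 i.castSucc) (q.1 * q.2.1.1.1 (Fin.last (k + 1))),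
    sn_ne _ _ (Or.inl (US_inter k T q.2.2))⟩, q.2.1.2), ?_⟩, ?_⟩, ?_, ?_⟩⟩
  · obtain ⟨i, hi⟩ := US_inter k T q.2.2
    have h : ∃ i : Fin (k + 1), sn (fun i => q.2.1.1.1 i.castSucc)
      (q.1 * q.2.1.1.1 (Fin.last (k + 1))) i.castSucc ≠ 0 := ⟨i, by rw [sn_castSucc]; exact hi⟩
    exact ⟨Or.inl h, Or.inl h⟩
  · refine Continuous.subtype_mk ?_ _
    refine Continuous.prodMk ?_ (continuous_snd.comp (continuous_subtype_val.comp continuous_snd))
    refine Continuous.subtype_mk ?_ _
    refine sn_cont ?_ ?_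
    · exact continuous_pi fun i => (coord_cont k T _).comp
        (continuous_subtype_val.comp continuous_snd)
    · exact (continuous_subtype_val.comp continuous_fst).mul ((coord_cont k T _).comp
        (continuous_subtype_val.comp continuous_snd))
  · intro p
    apply Subtype.ext
    refine Prod.ext (Subtype.ext ?_) rfl
    refine ext_last (fun i => ?_) ?_
    · simp [sn_castSucc, ss, rr]
    · simp [sn_last, ss, rr]
  · intro p
    apply Subtype.ext
    refine Prod.ext (Subtype.ext ?_) rfl
    refine ext_last (fun i => ?_) ?_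
    · simp [sn_castSucc]
    · simp [sn_last]

/-- the projection to `T` -/
def prU (c : ℝ) : C(↥(US k T c), T) := ContinuousMap.snd.comp (inc (US k T c))

/-- the centre of `US` -/
def pt (c : ℝ) (hc : c ≠ 0) : Sph (k + 1) := ⟨sn 0 c, sn_ne _ _ (Or.inr hc)⟩

/-- the section of `prU` -/
def ii (c : ℝ) (hc : c ≠ 0) : C(T, ↥(US k T c)) where
  toFun t := ⟨(pt k c hc, t), by
    right
    change 0 < c * sn 0 c (Fin.last (k + 1))
    rw [sn_last]
    exact mul_self_pos.2 hc⟩
  continuous_toFun := by
    refine Continuous.subtype_mk ?_ _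
    exact continuous_const.prodMk continuous_id

theorem prU_ii (c : ℝ) (hc : c ≠ 0) : (prU k T c).comp (ii k T c hc) = ContinuousMap.id _ := rfl

theorem cvx_mem (c : ℝ) (hc : c ≠ 0) (u : ℝ) (hu0 : 0 ≤ u) (hu1 : u ≤ 1)
    (p : Sph (k + 1) × T) (hp : p ∈ US k T c) :
    (∃ i : Fin (k + 1), (fun i => u * p.1.1 (Fin.castSucc i)) i ≠ 0) ∨
      0 < c * (u * p.1.1 (Fin.last (k + 1)) + (1 - u) * c) := by
  rcases hp with ⟨i, hi⟩ | h
  · by_cases hu : u = 0
    · right
      rw [hu]
      have := mul_self_pos.2 hc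
      linarith
    · left
      exact ⟨i, mul_ne_zero hu hi⟩
  · right
    have h1 := mul_self_pos.2 hc
    by_cases hu : u = 0
    · rw [hu]
      linarith
    · have h2 : 0 < u := lt_of_le_of_ne hu0 (Ne.symm hu)
      have h3 : 0 < u * (c * p.1.1 (Fin.last (k + 1))) := mul_pos h2 h
      have h4 : 0 ≤ (1 - u) * (c * c) := mul_nonneg (by linarith) h1.le
      nlinarith

theorem ii_prU (c : ℝ) (hc : c ≠ 0) :
    ((ii k T c hc).comp (prU k T c)).Homotopic (ContinuousMap.id _) := by
  have hmem := fun (q : I × ↥(US k T c)) =>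
    cvx_mem k T c hc q.1 (unitInterval.nonneg q.1) (unitInterval.le_one q.1) q.2.1 q.2.2
  refine ⟨⟨⟨fun q => ⟨(⟨sn (fun i => (q.1 : ℝ) * q.2.1.1.1 i.castSucc)
    ((q.1 : ℝ) * q.2.1.1.1 (Fin.last (k + 1)) + (1 - (q.1 : ℝ)) * c),
    sn_ne _ _ ?_⟩, q.2.1.2), ?_⟩, ?_⟩, ?_, ?_⟩⟩
  · rcases hmem q with h | h
    · exact Or.inl h
    · right
      intro h0
      rw [h0, mul_zero] at h
      exact lt_irrefl _ h
  · rcases hmem q with ⟨i, h⟩ | h
    · left
      refine ⟨i, ?_⟩
      dsimp only
      rw [sn_castSucc]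
      exact h
    · right
      dsimp only
      rw [sn_last]
      exact h
  · refine Continuous.subtype_mk ?_ _
    refine Continuous.prodMk ?_ (continuous_snd.comp (continuous_subtype_val.comp continuous_snd))
    refine Continuous.subtype_mk ?_ _
    have hI : Continuous (fun q : I × ↥(US k T c) => (q.1 : ℝ)) :=
      continuous_subtype_val.comp continuous_fst
    refine sn_cont ?_ ?_
    · exact continuous_pi fun i => hI.mul ((coord_cont k T _).comp
        (continuous_subtype_val.comp continuous_snd))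
    · exact (hI.mul ((coord_cont k T _).comp
        (continuous_subtype_val.comp continuous_snd))).add
          ((continuous_const.sub hI).mul continuous_const)
  · intro p
    apply Subtype.ext
    refine Prod.ext (Subtype.ext ?_) rfl
    refine ext_last (fun i => ?_) ?_
    · simp [sn_castSucc, ii, pt]
    · simp [sn_last, ii, pt]
  · intro p
    apply Subtype.ext
    refine Prod.ext (Subtype.ext ?_) rfl
    refine ext_last (fun i => ?_) ?_
    · simp [sn_castSucc]
    · simp [sn_last]

theorem ii_homotopic : ((inc (US k T 1)).comp (ii k T 1 one_ne_zero)).Homotopic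
    ((inc (US k T (-1))).comp (ii k T (-1) (neg_ne_zero.2 one_ne_zero))) := by
  refine ⟨⟨⟨fun q => (⟨sn (fun _ => (q.1 : ℝ) * (1 - (q.1 : ℝ))) (1 - 2 * (q.1 : ℝ)),
    sn_ne _ _ ?_⟩, q.2), ?_⟩, ?_, ?_⟩⟩
  · by_cases h : 1 - 2 * (q.1 : ℝ) = 0
    · left
      refine ⟨0, ?_⟩
      have : (q.1 : ℝ) = 1 / 2 := by linarith
      simp only [this]
      norm_num
    · exact Or.inr h
  · refine Continuous.prodMk ?_ continuous_snd
    refine Continuous.subtype_mk ?_ _
    have hI : Continuous (fun q : I × T => (q.1 : ℝ)) :=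
      continuous_subtype_val.comp continuous_fst
    refine sn_cont (continuous_pi fun _ => hI.mul (continuous_const.sub hI)) ?_
    exact continuous_const.sub (continuous_const.mul hI)
  · intro t
    refine Prod.ext (Subtype.ext ?_) rfl
    refine ext_last (fun i => ?_) ?_
    · simp [sn_castSucc, ii, pt, inc]
    · simp [sn_last, ii, pt, inc]
  · intro t
    refine Prod.ext (Subtype.ext ?_) rfl
    refine ext_last (fun i => ?_) ?_
    · simp [sn_castSucc, ii, pt, inc]
    · simp [sn_last, ii, pt, inc]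
      norm_num

end su

section main

variable (R : Type) [CommRing R] (k : ℕ) (T : Type) [TopologicalSpace T]

theorem ii_inj (hHM : T_HM) (c : ℝ) (hc : c ≠ 0) (q : ℕ) (a : HH R q ↥(US k T c)) :
    HH.map R q (ii k T c hc) (HH.map R q (prU k T c) a) = a := by
  rw [← HH.map_comp, hHM R _ _ _ _ (ii_prU k T c hc) q, HH.map_id]

/-- every class coming from `US` comes from `T` -/
theorem inc_eq (hHM : T_HM) (c : ℝ) (hc : c ≠ 0) (q : ℕ) (a : HH R q ↥(US k T c)) :
    HH.map R q (inc (US k T c)) a =
      HH.map R q ((inc (US k T c)).comp (ii k T c hc)) (HH.map R q (prU k T c) a) := by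
  rw [HH.map_comp, ii_inj R k T hHM c hc]

theorem snd_ins (q : ℕ) (a : HH R q T) :
    HH.map R q (ContinuousMap.snd : C(Sph (k + 1) × T, T))
      (HH.map R q ((inc (US k T 1)).comp (ii k T 1 one_ne_zero)) a) = a := by
  rw [← HH.map_comp]
  have h : (ContinuousMap.snd : C(Sph (k + 1) × T, T)).comp
      ((inc (US k T 1)).comp (ii k T 1 one_ne_zero)) = ContinuousMap.id T := rfl
  rw [h, HH.map_id]

/-- a class in the kernel which is a sum of classes from the two open sets vanishes -/
theorem eq_zero_of_sum (hHM : T_HM) (q : ℕ) (z : HH R q (Sph (k + 1) × T))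
    (hz : HH.map R q (ContinuousMap.snd : C(Sph (k + 1) × T, T)) z = 0)
    (a : HH R q ↥(US k T 1)) (b : HH R q ↥(US k T (-1)))
    (h : z = HH.map R q (inc (US k T 1)) a + HH.map R q (inc (US k T (-1))) b) : z = 0 := by
  rw [inc_eq R k T hHM 1 one_ne_zero, inc_eq R k T hHM (-1) (neg_ne_zero.2 one_ne_zero),
    ← hHM R _ _ _ _ (ii_homotopic k T) q, ← map_add] at h
  rw [h, snd_ins] at hz
  rw [h, hz, map_zero]

variable (M : MVTheory R)

/-- the boundary map for the suspension -/
noncomputable def DD (n : ℕ) : HH R (n + 1) (Sph (k + 1) × T) →ₗ[R] HH R n (Sph k × T) :=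
  (HH.map R n (rr k T)).comp (M.δ (Sph (k + 1) × T) (US k T 1) (US k T (-1)) n)

theorem rr_inj (hHM : T_HM) (n : ℕ) : Function.Injective (HH.map R n (rr k T)) := by
  refine Function.LeftInverse.injective (g := HH.map R n (ss k T)) fun z => ?_
  rw [← HH.map_comp, hHM R _ _ _ _ (ss_rr k T) n, HH.map_id]

theorem DD_mem (n : ℕ) (z : HH R (n + 1) (Sph (k + 1) × T)) : DD R k T M n z ∈ KK R k n T := by
  rw [KK, LinearMap.mem_ker, DD, LinearMap.comp_apply, ← HH.map_comp]
  have h : (ContinuousMap.snd : C(Sph k × T, T)).comp (rr k T) =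
      (prU k T 1).comp (incL (US k T 1) (US k T (-1))) := rfl
  rw [h, HH.map_comp, ((M.exact_inter _ _ _ (US_open k T 1) (US_open k T (-1)) (US_union k T)
    n _).2 ⟨z, rfl⟩).1, map_zero]

theorem DD_inj (hHM : T_HM) (n : ℕ) (z : HH R (n + 1) (Sph (k + 1) × T))
    (hz : z ∈ KK R (k + 1) (n + 1) T) (h : DD R k T M n z = 0) : z = 0 := by
  rw [DD, LinearMap.comp_apply] at h
  have h1 : M.δ (Sph (k + 1) × T) (US k T 1) (US k T (-1)) n z = 0 :=
    rr_inj R k T hHM n (by rw [h, map_zero])
  obtain ⟨a, b, hab⟩ := (M.exact_union _ _ _ (US_open k T 1) (US_open k T (-1)) (US_union k T)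
    n z).2 h1
  exact eq_zero_of_sum R k T hHM (n + 1) z hz a b hab

theorem DD_surj (hHM : T_HM) (n : ℕ) (w : HH R n (Sph k × T)) (hw : w ∈ KK R k n T) :
    ∃ z ∈ KK R (k + 1) (n + 1) T, DD R k T M n z = w := by
  rw [KK, LinearMap.mem_ker] at hw
  have hL : HH.map R n (incL (US k T 1) (US k T (-1))) (HH.map R n (ss k T) w) = 0 := by
    have h : HH.map R n (prU k T 1) (HH.map R n (incL (US k T 1) (US k T (-1)))
        (HH.map R n (ss k T) w)) = 0 := by
      rw [← HH.map_comp, ← HH.map_comp]
      exact hw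
    rw [← ii_inj R k T hHM 1 one_ne_zero n (HH.map R n (incL _ _) _), h, map_zero]
  have hR : HH.map R n (incR (US k T 1) (US k T (-1))) (HH.map R n (ss k T) w) = 0 := by
    have h : HH.map R n (prU k T (-1)) (HH.map R n (incR (US k T 1) (US k T (-1)))
        (HH.map R n (ss k T) w)) = 0 := by
      rw [← HH.map_comp, ← HH.map_comp]
      exact hw
    rw [← ii_inj R k T hHM (-1) (neg_ne_zero.2 one_ne_zero) n (HH.map R n (incR _ _) _), h,
      map_zero]
  obtain ⟨z, hz⟩ := (M.exact_inter _ _ _ (US_open k T 1) (US_open k T (-1)) (US_union k T)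
    n _).1 ⟨hL, hR⟩
  refine ⟨z - HH.map R (n + 1) ((inc (US k T 1)).comp (ii k T 1 one_ne_zero))
    (HH.map R (n + 1) (ContinuousMap.snd : C(Sph (k + 1) × T, T)) z), ?_, ?_⟩
  · rw [KK, LinearMap.mem_ker, map_sub, snd_ins, sub_self]
  · have h0 : M.δ (Sph (k + 1) × T) (US k T 1) (US k T (-1)) n
        (HH.map R (n + 1) ((inc (US k T 1)).comp (ii k T 1 one_ne_zero))
          (HH.map R (n + 1) (ContinuousMap.snd : C(Sph (k + 1) × T, T)) z)) = 0 := by
      rw [← M.exact_union _ _ _ (US_open k T 1) (US_open k T (-1)) (US_union k T) n]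
      refine ⟨HH.map R (n + 1) (ii k T 1 one_ne_zero)
          (HH.map R (n + 1) (ContinuousMap.snd : C(Sph (k + 1) × T, T)) z), 0, ?_⟩
      rw [map_zero, add_zero, HH.map_comp]
    rw [map_sub, DD, LinearMap.comp_apply, LinearMap.comp_apply, h0, map_zero, sub_zero, hz,
      ← HH.map_comp, rr_ss, HH.map_id]

/-- the isomorphism -/
noncomputable def sg (hHM : T_HM) (n : ℕ) : KK R (k + 1) (n + 1) T ≃ₗ[R] KK R k n T :=
  LinearEquiv.ofBijective
    (((DD R k T M n).comp (KK R (k + 1) (n + 1) T).subtype).codRestrict (KK R k n T)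
      (fun z => DD_mem R k T M n z.1)) (by
    constructor
    · rw [← LinearMap.ker_eq_bot, LinearMap.ker_eq_bot']
      intro z hz
      apply Subtype.ext
      exact DD_inj R k T M hHM n z.1 z.2 (congrArg Subtype.val hz)
    · intro w
      obtain ⟨z, hz, hzw⟩ := DD_surj R k T M hHM n w.1 w.2
      exact ⟨⟨z, hz⟩, Subtype.ext hzw⟩)

theorem sg_coe (hHM : T_HM) (n : ℕ) (z : KK R (k + 1) (n + 1) T) :
    (sg R k T M hHM n z).1 = DD R k T M n z.1 := rfl

end main

theorem su1 (hMV : T_MV) (hHM : T_HM) : T_SU1 := by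
  intro R _ k
  obtain ⟨M⟩ := hMV R
  refine ⟨fun n T _ => sg R k T M hHM n, ?_, ?_, ?_, ?_⟩
  · intro n T T' _ _ g z z' h
    rw [sg_coe, sg_coe, h]
    have hm : ∀ c : ℝ, MapsTo ((ContinuousMap.id (Sph (k + 1))).prodMap g) (US k T c)
        (US k T' c) := fun c p hp => hp
    rw [DD, DD, LinearMap.comp_apply, LinearMap.comp_apply, M.natural _ _ _ _ _ _
      (US_open k T 1) (US_open k T (-1)) (US_union k T) (US_open k T' 1) (US_open k T' (-1))
      (US_union k T') _ (hm 1) (hm (-1)), ← HH.map_comp, ← HH.map_comp]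
    rfl
  · intro n T _ j z z' h
    rw [sg_coe, sg_coe, h]
    have hm : ∀ c : ℝ, MapsTo ((Sph.refl (k + 1) j.castSucc).prodMap (ContinuousMap.id T))
        (US k T c) (US k T c) := by
      intro c p hp
      rcases hp with ⟨i, hi⟩ | hp
      · left
        refine ⟨i, ?_⟩
        change (if i.castSucc = j.castSucc then - p.1.1 i.castSucc else p.1.1 i.castSucc) ≠ 0
        split_ifs
        · exact neg_ne_zero.2 hi
        · exact hi
      · right
        change 0 < c * (if Fin.last (k + 1) = j.castSucc then - p.1.1 (Fin.last (k + 1)) else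
          p.1.1 (Fin.last (k + 1)))
        rw [if_neg (Fin.castSucc_lt_last j).ne']
        exact hp
    rw [DD, LinearMap.comp_apply, LinearMap.comp_apply, M.natural _ _ _ _ _ _
      (US_open k T 1) (US_open k T (-1)) (US_union k T) (US_open k T 1) (US_open k T (-1))
      (US_union k T) _ (hm 1) (hm (-1)), ← HH.map_comp, ← HH.map_comp]
    congr 2
    ext p i
    · change (if i.castSucc = j.castSucc then - p.1.1.1 i.castSucc else p.1.1.1 i.castSucc) =
        (if i = j then - p.1.1.1 i.castSucc else p.1.1.1 i.castSucc)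
      simp only [Fin.castSucc_inj]
    · rfl
  · intro n T _ z hz
    have hm1 : MapsTo ((Sph.refl (k + 1) (Fin.last (k + 1))).prodMap (ContinuousMap.id T))
        (US k T 1) (US k T (-1)) := by
      intro p hp
      rcases hp with ⟨i, hi⟩ | hp
      · left
        refine ⟨i, ?_⟩
        change (if i.castSucc = Fin.last (k + 1) then - p.1.1 i.castSucc else
          p.1.1 i.castSucc) ≠ 0
        rw [if_neg (Fin.castSucc_lt_last i).ne]
        exact hi
      · right
        change 0 < (-1) * (if Fin.last (k + 1) = Fin.last (k + 1) then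
          - p.1.1 (Fin.last (k + 1)) else p.1.1 (Fin.last (k + 1)))
        rw [if_pos rfl]
        linarith
    have hm2 : MapsTo ((Sph.refl (k + 1) (Fin.last (k + 1))).prodMap (ContinuousMap.id T))
        (US k T (-1)) (US k T 1) := by
      intro p hp
      rcases hp with ⟨i, hi⟩ | hp
      · left
        refine ⟨i, ?_⟩
        change (if i.castSucc = Fin.last (k + 1) then - p.1.1 i.castSucc else
          p.1.1 i.castSucc) ≠ 0
        rw [if_neg (Fin.castSucc_lt_last i).ne]
        exact hi
      · right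
        change 0 < 1 * (if Fin.last (k + 1) = Fin.last (k + 1) then
          - p.1.1 (Fin.last (k + 1)) else p.1.1 (Fin.last (k + 1)))
        rw [if_pos rfl]
        linarith
    have h1 : DD R k T M n (HH.map R (n + 1)
        ((Sph.refl (k + 1) (Fin.last (k + 1))).prodMap (ContinuousMap.id T)) z + z) = 0 := by
      rw [map_add, DD, LinearMap.comp_apply, LinearMap.comp_apply, M.anti _ _ _ _ _ _
        (US_open k T 1) (US_open k T (-1)) (US_union k T) (US_open k T 1) (US_open k T (-1))
        (US_union k T) _ hm1 hm2, map_neg, ← HH.map_comp]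
      have h2 : (rr k T).comp (res ((Sph.refl (k + 1) (Fin.last (k + 1))).prodMap
          (ContinuousMap.id T)) (mapsTo_inter' hm1 hm2)) = rr k T := by
        ext p i
        · change (if i.castSucc = Fin.last (k + 1) then - p.1.1.1 i.castSucc else
            p.1.1.1 i.castSucc) = p.1.1.1 i.castSucc
          rw [if_neg (Fin.castSucc_lt_last i).ne]
        · rfl
      rw [h2, neg_add_cancel]
    rw [KK, LinearMap.mem_ker] at hz
    have h3 : HH.map R (n + 1) ((Sph.refl (k + 1) (Fin.last (k + 1))).prodMap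
        (ContinuousMap.id T)) z + z ∈ KK R (k + 1) (n + 1) T := by
      rw [KK, LinearMap.mem_ker, map_add, ← HH.map_comp, hz, add_zero]
      exact hz
    exact eq_neg_of_add_eq_zero_left (DD_inj R k T M hHM n _ h3 h1)
  · intro T _
    rw [eq_bot_iff]
    intro z hz
    rw [KK, LinearMap.mem_ker] at hz
    obtain ⟨a, b, hab⟩ := M.surj_zero _ _ _ (US_open k T 1) (US_open k T (-1)) (US_union k T) z
    exact eq_zero_of_sum R k T hHM 0 z hz a b hab

end Pool.Agent.H4.LB
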